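import Pool.Agent.H28BS.Ionin

/-!
# Infinite families of symmetric designs from Golay pairs

Ionin and Kharaghani: a Hadamard matrix of order `2h` such that `p = 2h + 1` is a prime power gives symmetric
designs with parameters
`(4 h² (1 + p² + ⋯ + p ^ (2m)), p ^ (2m) (2h² + h), p ^ (2m) (h² + h))`, `m = 0, 1, 2, …`.
Here this is done for all orders `2h = 4 M t`, where `t` is the order of any Hadamard matrix (for instance
`t = 1`) and `M` is one of

* `(2a+1) (2b+1) (2c+1) (2d+1)` with Golay numbers `a`, `b`, `c`, `d`;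
* `(2a+1) (2b+1) (2c+1) w` with Golay numbers `a`, `b`, `c`, where `2w - 1` is a prime power `= 1` modulo `4`
  or `w` is the order of a finite abelian group with Williamson functions;
* `|K| (2g+1)` with a Golay number `g` and a finite abelian group `K` with `T`-functions.
-/

set_option autoImplicit false

namespace Pool.Agent.Results.MP_3038d1_co.IoninGolayFamilies

/-- `B` lists the `v` blocks of a symmetric `(v, k, l)`-design on the point set `Fin v`: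
`k < v`, `0 < l`, every block has `k` points, every point is in `k` blocks, any two distinct points
are in exactly `l` common blocks (and any two distinct blocks have exactly `l` common points). -/
def IsSymmetricDesign (v k l : ℕ) (B : Fin v → Finset (Fin v)) : Prop :=
  k < v ∧ 0 < l ∧ (∀ i, (B i).card = k) ∧
  (∀ x, (Finset.univ.filter (fun i => x ∈ B i)).card = k) ∧
  (∀ x y, x ≠ y → (Finset.univ.filter (fun i => x ∈ B i ∧ y ∈ B i)).card = l) ∧
  (∀ i j, i ≠ j → (B i ∩ B j).card = l)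

/-- `g` is a Golay number: there is a pair of `±1` sequences of length `g` (extended by zero) whose
nonperiodic autocorrelations cancel at every shift `j ≥ 1`. -/
def IsGolayNumber (g : ℕ) : Prop :=
  ∃ P Q : ℕ → ℤ,
    (∀ i, i < g → (P i = 1 ∨ P i = -1)) ∧ (∀ i, g ≤ i → P i = 0) ∧
    (∀ i, i < g → (Q i = 1 ∨ Q i = -1)) ∧ (∀ i, g ≤ i → Q i = 0) ∧
    (∀ j : ℕ, 1 ≤ j → ∑ i ∈ Finset.range g, (P i * P (i + j) + Q i * Q (i + j)) = 0)

/-- `t` is the order of a Hadamard matrix. -/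
def IsHadamardOrder (t : ℕ) : Prop :=
  ∃ H : Matrix (Fin t) (Fin t) ℤ, (∀ i j, H i j = 1 ∨ H i j = -1) ∧ H * H.transpose = (t : ℤ) • 1

/-- `W 0, …, W 3` are symmetric sign functions on `K` with vanishing total periodic autocorrelation. -/
def IsWilliamson (K : Type) [AddCommGroup K] [Fintype K] (W : Fin 4 → K → ℤ) : Prop :=
  (∀ e x, W e x = 1 ∨ W e x = -1) ∧ (∀ e x, W e (-x) = W e x) ∧
    ∀ s, s ≠ 0 → ∑ e, ∑ x, W e x * W e (x + s) = 0

/-- `T 0, …, T 3` are `T`-functions on `K`: with values `0, 1, -1`, exactly one of them nonzero at each point,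
with vanishing total periodic autocorrelation. -/
def IsTFunctions (K : Type) [AddCommGroup K] [Fintype K] (T : Fin 4 → K → ℤ) : Prop :=
  (∀ x, ∃ e, (T e x = 1 ∨ T e x = -1) ∧ ∀ e', e' ≠ e → T e' x = 0) ∧
    ∀ s, s ≠ 0 → ∑ e, ∑ x, T e x * T e (x + s) = 0

/-- The multipliers `M` of the three kinds. -/
def IsMultiplier (M : ℕ) : Prop :=
  (∃ a b c d : ℕ, 1 ≤ a ∧ 1 ≤ b ∧ 1 ≤ c ∧ 1 ≤ d ∧ IsGolayNumber a ∧ IsGolayNumber b ∧
    IsGolayNumber c ∧ IsGolayNumber d ∧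
    M = (2 * a + 1) * (2 * b + 1) * (2 * c + 1) * (2 * d + 1)) ∨
  (∃ a b c w : ℕ, 1 ≤ a ∧ 1 ≤ b ∧ 1 ≤ c ∧ IsGolayNumber a ∧ IsGolayNumber b ∧ IsGolayNumber c ∧
    ((∃ q : ℕ, IsPrimePow q ∧ q % 4 = 1 ∧ 2 * w = q + 1) ∨
      ∃ (K : Type) (_ : AddCommGroup K) (_ : Fintype K) (W : Fin 4 → K → ℤ),
        IsWilliamson K W ∧ w = Fintype.card K) ∧
    M = (2 * a + 1) * (2 * b + 1) * (2 * c + 1) * w) ∨
  (∃ (g : ℕ) (K : Type) (_ : AddCommGroup K) (_ : Fintype K) (T : Fin 4 → K → ℤ),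
    1 ≤ g ∧ IsGolayNumber g ∧ IsTFunctions K T ∧ M = Fintype.card K * (2 * g + 1))

theorem had_of_multiplier {M : ℕ} (hM : IsMultiplier M) :
    Pool.Agent.TH394.HadOrder (4 * M) := by
  rcases hM with ⟨a, b, c, d, ha, hb, hc, hd, ga, gb, gc, gd, rfl⟩ |
    ⟨a, b, c, w, ha, hb, hc, ga, gb, gc, hw, rfl⟩ | ⟨g, K, _, _, T, hg, gg, hT, rfl⟩
  · exact Pool.Agent.H28BS.had_four ha hb hd ga gb gc gd
  · rcases hw with ⟨q, hq, hq4, hqw⟩ | ⟨K, _, _, W, ⟨h1, h2, h3⟩, rfl⟩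
    · obtain ⟨K, _, _, W, hK, h1, h2, h3⟩ := Pool.Agent.H28BS.turyn q hq hq4
      have key := Pool.Agent.H28BS.had_three ha hb ga gb gc W h1 h2 h3
      have e : Fintype.card K = w := by omega
      rw [e] at key
      exact key
    · exact Pool.Agent.H28BS.had_three ha hb ga gb gc W h1 h2 h3
  · exact Pool.Agent.H28BS.had_T T hT.1 hT.2 hg gg

theorem golay (i j k : ℕ) : 1 ≤ 2 ^ i * 10 ^ j * 26 ^ k ∧ IsGolayNumber (2 ^ i * 10 ^ j * 26 ^ k) := by
  obtain ⟨P, Q, h⟩ := Pool.Agent.H28BS.gp_exists i j k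
  exact ⟨Nat.one_le_iff_ne_zero.2 (by positivity), Pool.Agent.H28BS.golayNumber_of_gp h⟩

theorem main {M t h p : ℕ} (hM : IsMultiplier M) (ht : IsHadamardOrder t) (hh : h = 2 * M * t)
    (hp : p = 2 * h + 1) (hpp : IsPrimePow p) (m : ℕ) :
    ∃ B, IsSymmetricDesign (4 * h ^ 2 * ∑ i ∈ Finset.range (m + 1), p ^ (2 * i))
      (p ^ (2 * m) * (2 * h ^ 2 + h)) (p ^ (2 * m) * (h ^ 2 + h)) B :=
  Pool.Agent.H28BS.design_of_order (had_of_multiplier hM) ht hh hp hpp m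

theorem example_of {b w q h p : ℕ} (hb : ∃ i j k, b = 2 ^ i * 10 ^ j * 26 ^ k) (hq : IsPrimePow q)
    (hq4 : q % 4 = 1) (hw : 2 * w = q + 1) (hh : h = 2 * (3 * (2 * b + 1) * (2 * b + 1) * w))
    (hp : p = 2 * h + 1) (hpp : p.Prime) (m : ℕ) :
    ∃ B, IsSymmetricDesign (4 * h ^ 2 * ∑ i ∈ Finset.range (m + 1), p ^ (2 * i))
      (p ^ (2 * m) * (2 * h ^ 2 + h)) (p ^ (2 * m) * (h ^ 2 + h)) B := by
  obtain ⟨i, j, k, rfl⟩ := hb
  have g1 : 1 ≤ 1 ∧ IsGolayNumber 1 := by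
    have := golay 0 0 0
    norm_num at this
    exact ⟨le_rfl, this⟩
  have gb := golay i j k
  refine main (M := (2 * 1 + 1) * (2 * (2 ^ i * 10 ^ j * 26 ^ k) + 1) *
    (2 * (2 ^ i * 10 ^ j * 26 ^ k) + 1) * w) (t := 1)
    (Or.inr (Or.inl ⟨1, _, _, w, g1.1, gb.1, gb.1, g1.2, gb.2, gb.2,
      Or.inl ⟨q, hq, hq4, hw⟩, rfl⟩)) ⟨1, fun i j => ?_, ?_⟩ ?_ hp hpp.isPrimePow m
  · left
    rw [Subsingleton.elim i j, Matrix.one_apply_eq]
  · simp
  · rw [hh]; ring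

theorem result :
    (∀ M t h p m : ℕ, IsMultiplier M → IsHadamardOrder t → h = 2 * M * t → p = 2 * h + 1 →
      IsPrimePow p →
      ∃ B, IsSymmetricDesign (4 * h ^ 2 * ∑ i ∈ Finset.range (m + 1), p ^ (2 * i))
        (p ^ (2 * m) * (2 * h ^ 2 + h)) (p ^ (2 * m) * (h ^ 2 + h)) B) ∧
    (∀ i j k : ℕ, IsGolayNumber (2 ^ i * 10 ^ j * 26 ^ k)) ∧
    (∀ h ∈ ([3556194, 4246206, 4567434] : List ℕ), ∀ p m : ℕ, p = 2 * h + 1 →
      ∃ B, IsSymmetricDesign (4 * h ^ 2 * ∑ i ∈ Finset.range (m + 1), p ^ (2 * i))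
        (p ^ (2 * m) * (2 * h ^ 2 + h)) (p ^ (2 * m) * (h ^ 2 + h)) B) := by
  refine ⟨fun M t h p m hM ht hh hp hpp => main hM ht hh hp hpp m, fun i j k => (golay i j k).2, ?_⟩
  intro h hh p m hp
  simp only [List.mem_cons, List.not_mem_nil, or_false] at hh
  rcases hh with rfl | rfl | rfl
  · exact example_of (b := 26) (w := 211) (q := 421) ⟨0, 0, 1, by norm_num⟩
      (Nat.Prime.isPrimePow (by norm_num)) (by norm_num)
      (by norm_num) (by norm_num) hp (by rw [hp]; norm_num) m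
  · exact example_of (b := 20) (w := 421) (q := 841) ⟨1, 1, 0, by norm_num⟩
      ⟨29, 2, Nat.prime_iff.mp (by norm_num), by norm_num, by norm_num⟩ (by norm_num)
      (by norm_num) (by norm_num) hp (by rw [hp]; norm_num) m
  · exact example_of (b := 26) (w := 271) (q := 541) ⟨0, 0, 1, by norm_num⟩
      (Nat.Prime.isPrimePow (by norm_num)) (by norm_num)
      (by norm_num) (by norm_num) hp (by rw [hp]; norm_num) m

end Pool.Agent.Results.MP_3038d1_co.IoninGolayFamilies
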