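import Pool.Agent.H28BS.Menon

/-!
# Menon designs with `u = (2a+1) (2b+1)` for all Golay numbers `a`, `b`

For all Golay numbers `a`, `b ≥ 1` and `u = (2a+1) (2b+1)` there is a symmetric
`(4u², 2u² - u, u² - u)`-design; every `2 ^ i * 10 ^ j * 26 ^ k` is a Golay number.

Two Golay pairs give base sequences `BS(n+1, n)` with `2n + 1 = (2a+1) (2b+1)`
(`Pool.Agent.H28BS.compose`), Yang's composition with a pair of length `b` gives `T`-sequences of length
`(2a+1) (2b+1)²`, and the composition of `T`-functions with a pair of length `a`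
(`Pool.Agent.H28BS.quad_TGolay`) gives four sign functions on an abelian group of order `u²` with vanishing
total periodic autocorrelation. With the pairs `(P; Q)`, `(F; G)` in the first step, `(F; -G)` in the second
and `(Q; -P)` in the third, the four sums are `u, -u, -u, u`, and the Goethals-Seidel array becomes a
Hadamard matrix of order `4u²` with constant row and column sums.
-/

set_option autoImplicit false

namespace Pool.Agent.Results.MP_3038d1_co.MenonGolayProducts

/-- `B` lists the `v` blocks of a symmetric `(v, k, l)`-design on the point set `Fin v`: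
`k < v`, `0 < l`, every block has `k` points, every point is in `k` blocks, any two distinct points
are in exactly `l` common blocks (and any two distinct blocks have exactly `l` common points). -/
def IsSymmetricDesign (v k l : ℕ) (B : Fin v → Finset (Fin v)) : Prop :=
  k < v ∧ 0 < l ∧ (∀ i, (B i).card = k) ∧
  (∀ x, (Finset.univ.filter (fun i => x ∈ B i)).card = k) ∧
  (∀ x y, x ≠ y → (Finset.univ.filter (fun i => x ∈ B i ∧ y ∈ B i)).card = l) ∧
  (∀ i j, i ≠ j → (B i ∩ B j).card = l)

/-- `g` is a Golay number: there is a pair of `±1` sequences of length `g` (extended by zero) whose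
nonperiodic autocorrelations cancel at every shift `j ≥ 1`. -/
def IsGolayNumber (g : ℕ) : Prop :=
  ∃ P Q : ℕ → ℤ,
    (∀ i, i < g → (P i = 1 ∨ P i = -1)) ∧ (∀ i, g ≤ i → P i = 0) ∧
    (∀ i, i < g → (Q i = 1 ∨ Q i = -1)) ∧ (∀ i, g ≤ i → Q i = 0) ∧
    (∀ j : ℕ, 1 ≤ j → ∑ i ∈ Finset.range g, (P i * P (i + j) + Q i * Q (i + j)) = 0)

theorem result :
    (∀ a b u : ℕ, 1 ≤ a → 1 ≤ b → IsGolayNumber a → IsGolayNumber b →
      u = (2 * a + 1) * (2 * b + 1) →
      ∃ B, IsSymmetricDesign (4 * u ^ 2) (2 * u ^ 2 - u) (u ^ 2 - u) B) ∧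
    (∀ i j k : ℕ, IsGolayNumber (2 ^ i * 10 ^ j * 26 ^ k)) := by
  refine ⟨fun a b u ha hb ga gb hu => ?_, fun i j k => ?_⟩
  · exact Pool.Agent.H28BS.menon_golay ha hb ga gb hu
  · obtain ⟨P, Q, h⟩ := Pool.Agent.H28BS.gp_exists i j k
    exact Pool.Agent.H28BS.golayNumber_of_gp h

end Pool.Agent.Results.MP_3038d1_co.MenonGolayProducts
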